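import Mathlib

namespace Pool.Agent.Results.MP_fe6464_co.Cube

/-- Any two colourings with property `P` are joined by a finite sequence of colourings with
property `P` in which consecutive members differ at exactly one vertex. -/
def Mixing {V : Type} {k : ℕ} (P : (V → Fin k) → Prop) : Prop :=
  ∀ f g, P f → P g → Relation.ReflTransGen
    (fun f g => P f ∧ P g ∧ ∃ v, f v ≠ g v ∧ ∀ u, u ≠ v → f u = g u) f g

/-- `f` is a proper colouring of `G` with colour set `[k]`. -/
def Proper {V : Type} (G : SimpleGraph V) (k : ℕ) (f : V → Fin k) : Prop :=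
  ∀ u v, G.Adj u v → f u ≠ f v

/-- `f` is a `(k,q)`-colouring of `G`. -/
def Circ {V : Type} (G : SimpleGraph V) (k q : ℕ) (f : V → Fin k) : Prop :=
  ∀ u v, G.Adj u v → (q : ℤ) ≤ |((f u : ℕ) : ℤ) - ((f v : ℕ) : ℤ)| ∧
    |((f u : ℕ) : ℤ) - ((f v : ℕ) : ℤ)| ≤ (k : ℤ) - q

/-- The naturals `l` such that `G` is `k`-mixing for all integers `k ≥ l` (with `k ≥ 1`). -/
def MSet {V : Type} (G : SimpleGraph V) : Set ℕ :=
  {l | ∀ k : ℕ, 1 ≤ k → l ≤ k → Mixing (Proper G k)}

/-- The rationals `l` such that `G` is `(k,q)`-mixing whenever `k/q ≥ l`, as real numbers. -/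
def CSet {V : Type} (G : SimpleGraph V) : Set ℝ :=
  {x | ∃ l : ℚ, x = l ∧ ∀ k q : ℕ, 0 < k → 0 < q → l ≤ (k : ℚ) / q → Mixing (Circ G k q)}

abbrev St {V : Type} {k : ℕ} (P : (V → Fin k) → Prop) : (V → Fin k) → (V → Fin k) → Prop :=
  Relation.ReflTransGen (fun f g => P f ∧ P g ∧ ∃ v, f v ≠ g v ∧ ∀ u, u ≠ v → f u = g u)

lemma St_symm {V : Type} {k : ℕ} {P : (V → Fin k) → Prop} {f g : V → Fin k} (h : St P f g) :
    St P g f := by
  induction h with
  | refl => exact Relation.ReflTransGen.refl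
  | tail _ h2 ih =>
    obtain ⟨h1, h3, v, hv, hu⟩ := h2
    exact Relation.ReflTransGen.head ⟨h3, h1, v, hv.symm, fun u hu' => (hu u hu').symm⟩ ih

lemma indep_move {V : Type} [Fintype V] [DecidableEq V] (G : SimpleGraph V) (k q : ℕ)
    (g : V → Fin k) (hg : Circ G k q g) (n : ℕ) :
    ∀ f : V → Fin k, (Finset.univ.filter (fun v => f v ≠ g v)).card = n → Circ G k q f →
      (∀ u v, G.Adj u v → f u = g u ∨ f v = g v) → St (Circ G k q) f g := by
  induction n with
  | zero =>
    intro f hc _ _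
    have : f = g := by
      funext v
      by_contra h
      have : v ∈ Finset.univ.filter (fun v => f v ≠ g v) := by simp [h]
      rw [Finset.card_eq_zero.1 hc] at this
      simp at this
    rw [this]
  | succ n ih =>
    intro f hc hf hi
    obtain ⟨v, hv⟩ := Finset.card_pos.1 (by rw [hc]; exact Nat.succ_pos n)
    have hv' : f v ≠ g v := by simpa using hv
    have hcol : Circ G k q (Function.update f v (g v)) := by
      intro a b hab
      by_cases ha : a = v
      · subst ha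
        have hb : b ≠ a := hab.ne.symm
        have : f b = g b := (hi a b hab).resolve_left hv'
        simp only [Function.update_self, Function.update_of_ne hb, this]
        exact hg a b hab
      · by_cases hb : b = v
        · subst hb
          have : f a = g a := (hi a b hab).resolve_right hv'
          simp only [Function.update_self, Function.update_of_ne ha, this]
          exact hg a b hab
        · simp only [Function.update_of_ne ha, Function.update_of_ne hb]
          exact hf a b hab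
    refine Relation.ReflTransGen.head ⟨hf, hcol, v, by simpa using hv', fun u hu => by
      simp [Function.update_of_ne hu]⟩ (ih _ ?_ hcol ?_)
    · have : Finset.univ.filter (fun w => Function.update f v (g v) w ≠ g w) =
          (Finset.univ.filter (fun v => f v ≠ g v)).erase v := by
        ext w
        by_cases hw : w = v
        · subst hw; simp
        · simp [hw]
      rw [this, Finset.card_erase_of_mem hv, hc]
      rfl
    · intro a b hab
      by_cases ha : a = v
      · left; subst ha; simp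
      · by_cases hb : b = v
        · right; subst hb; simp
        · simp only [Function.update_of_ne ha, Function.update_of_ne hb]
          exact hi a b hab

abbrev V := Fin 4 ⊕ Fin 4 ⊕ Bool

def adj : V → V → Bool
  | .inl i, .inr (.inl j) => i != j
  | .inr (.inl j), .inl i => i != j
  | .inl i, .inr (.inr _) => i == 0
  | .inr (.inr _), .inl i => i == 0
  | .inr (.inr s), .inr (.inr t) => s != t
  | _, _ => false

def GG : SimpleGraph V where
  Adj u v := adj u v = true
  symm := ⟨by decide⟩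
  loopless := ⟨by decide⟩

instance : DecidableRel GG.Adj := fun u v => inferInstanceAs (Decidable (adj u v = true))

def D (k q : ℕ) (x y : ℤ) : Prop := ∃ m : ℤ, (q : ℤ) ≤ x - y + m * k ∧ x - y + m * k ≤ k - q

lemma D.symm {k q : ℕ} {x y : ℤ} (h : D k q x y) : D k q y x := by
  obtain ⟨m, h1, h2⟩ := h
  exact ⟨1 - m, by linarith, by linarith⟩

lemma D0 {k q : ℕ} {x y : ℤ} (h1 : (q : ℤ) ≤ x - y) (h2 : x - y ≤ k - q) : D k q x y :=
  ⟨0, by linarith, by linarith⟩

lemma D1 {k q : ℕ} {x y : ℤ} (h1 : (q : ℤ) ≤ y - x) (h2 : y - x ≤ k - q) : D k q x y :=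
  (D0 h1 h2).symm

lemma D.shift {k q : ℕ} {x y : ℤ} (h : D k q x y) (s t : ℤ) : D k q (x + s * k) (y + t * k) := by
  obtain ⟨m, h1, h2⟩ := h
  exact ⟨m - s + t, by linarith, by linarith⟩

lemma D.cases {k q : ℕ} {x y : ℤ} (h : D k q x y) (h1 : -(k : ℤ) - q < x - y)
    (h2 : x - y < k + q) :
    ((q : ℤ) ≤ x - y ∧ x - y ≤ k - q) ∨ ((q : ℤ) ≤ y - x ∧ y - x ≤ k - q) := by
  obtain ⟨m, h3, h4⟩ := h
  have hk : (0 : ℤ) ≤ k := Int.natCast_nonneg k
  have ha : m < 2 := by
    by_contra hh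
    have : 2 * (k : ℤ) ≤ m * k := mul_le_mul_of_nonneg_right (by omega) hk
    linarith
  have hb : -1 < m := by
    by_contra hh
    have : m * (k : ℤ) ≤ -1 * k := mul_le_mul_of_nonneg_right (by omega) hk
    linarith
  have : m = 0 ∨ m = 1 := by omega
  rcases this with rfl | rfl
  · left; constructor <;> linarith
  · right; constructor <;> linarith

def red (k : ℕ) (hk : 0 < k) (x : ℤ) : Fin k :=
  ⟨(x % k).toNat, by
    have h1 := Int.emod_lt_of_pos x (show (0 : ℤ) < k by exact_mod_cast hk)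
    have h2 := Int.emod_nonneg x (show (k : ℤ) ≠ 0 by exact_mod_cast hk.ne')
    omega⟩

lemma red_val (k : ℕ) (hk : 0 < k) (x : ℤ) : (((red k hk x : Fin k) : ℕ) : ℤ) = x % k := by
  have h2 := Int.emod_nonneg x (show (k : ℤ) ≠ 0 by exact_mod_cast hk.ne')
  simp [red, Int.toNat_of_nonneg h2]

lemma red_ok {k q : ℕ} (hk : 0 < k) {x y : ℤ} (h : D k q x y) :
    (q : ℤ) ≤ |((red k hk x : ℕ) : ℤ) - ((red k hk y : ℕ) : ℤ)| ∧
    |((red k hk x : ℕ) : ℤ) - ((red k hk y : ℕ) : ℤ)| ≤ (k : ℤ) - q := by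
  rw [red_val, red_val]
  have h1 := Int.emod_lt_of_pos x (show (0 : ℤ) < k by exact_mod_cast hk)
  have h2 := Int.emod_nonneg x (show (k : ℤ) ≠ 0 by exact_mod_cast hk.ne')
  have h3 := Int.emod_lt_of_pos y (show (0 : ℤ) < k by exact_mod_cast hk)
  have h4 := Int.emod_nonneg y (show (k : ℤ) ≠ 0 by exact_mod_cast hk.ne')
  have hs := h.shift (-(x / k)) (-(y / k))
  have e1 : x + -(x / k) * k = x % k := by rw [Int.emod_def]; ring
  have e2 : y + -(y / k) * k = y % k := by rw [Int.emod_def]; ring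
  rw [e1, e2] at hs
  have hq : (0 : ℤ) ≤ q := Int.natCast_nonneg q
  rcases hs.cases (by linarith) (by linarith) with ⟨a, b⟩ | ⟨a, b⟩
  · rw [abs_of_nonneg (by linarith)]; exact ⟨a, b⟩
  · rw [abs_of_nonpos (by linarith)]; constructor <;> linarith

def F (k : ℕ) (hk : 0 < k) (a b : Fin 4 → ℤ) (x y : ℤ) : V → Fin k
  | .inl i => red k hk (a i)
  | .inr (.inl j) => red k hk (b j)
  | .inr (.inr false) => red k hk x
  | .inr (.inr true) => red k hk y

def Val (k q : ℕ) (a b : Fin 4 → ℤ) (x y : ℤ) : Prop :=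
  (∀ i j, i ≠ j → D k q (a i) (b j)) ∧ D k q (a 0) x ∧ D k q (a 0) y ∧ D k q x y

lemma Val.circ {k q : ℕ} (hk : 0 < k) {a b : Fin 4 → ℤ} {x y : ℤ} (h : Val k q a b x y) :
    Circ GG k q (F k hk a b x y) := by
  obtain ⟨h1, h2, h3, h4⟩ := h
  intro u v huv
  rcases u with i | j | _ | _ <;> rcases v with i' | j' | _ | _ <;>
    simp only [GG, adj, bne_iff_ne, beq_iff_eq, ne_eq, Bool.false_eq_true, not_true_eq_false,
      reduceCtorEq, not_false_eq_true] at huv <;> simp only [F]
  · exact red_ok hk (h1 _ _ huv)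
  · subst huv; exact red_ok hk h2
  · subst huv; exact red_ok hk h3
  · exact red_ok hk (h1 _ _ huv).symm
  · subst huv; exact red_ok hk h2.symm
  · exact red_ok hk h4
  · subst huv; exact red_ok hk h3.symm
  · exact red_ok hk h4.symm

section moves
variable {k q : ℕ} (hk : 0 < k)

lemma mA {a a' b : Fin 4 → ℤ} {x y : ℤ} (h : Val k q a b x y) (h' : Val k q a' b x y) :
    St (Circ GG k q) (F k hk a b x y) (F k hk a' b x y) := by
  refine indep_move GG k q _ (h'.circ hk) _ _ rfl (h.circ hk) ?_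
  intro u v huv
  rcases u with i | j | _ | _ <;> rcases v with i' | j' | _ | _ <;> simp_all [GG, adj, F]

lemma mB {a b b' : Fin 4 → ℤ} {x x' y : ℤ} (h : Val k q a b x y) (h' : Val k q a b' x' y) :
    St (Circ GG k q) (F k hk a b x y) (F k hk a b' x' y) := by
  refine indep_move GG k q _ (h'.circ hk) _ _ rfl (h.circ hk) ?_
  intro u v huv
  rcases u with i | j | _ | _ <;> rcases v with i' | j' | _ | _ <;> simp_all [GG, adj, F]

lemma mY {a b : Fin 4 → ℤ} {x y y' : ℤ} (h : Val k q a b x y) (h' : Val k q a b x y') :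
    St (Circ GG k q) (F k hk a b x y) (F k hk a b x y') := by
  refine indep_move GG k q _ (h'.circ hk) _ _ rfl (h.circ hk) ?_
  intro u v huv
  rcases u with i | j | _ | _ <;> rcases v with i' | j' | _ | _ <;> simp_all [GG, adj, F]

def N (k q : ℕ) (hk : 0 < k) (c : ℤ) : V → Fin k :=
  F k hk (fun _ => c) (fun _ => c + q) (c + q) (c + 2 * q)

lemma rot (hq : 4 * q < k) (c : ℤ) : St (Circ GG k q) (N k q hk c) (N k q hk (c + 1)) := by
  have hq' : 4 * (q : ℤ) < k := by exact_mod_cast hq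
  have h0 : (0 : ℤ) ≤ q := Int.natCast_nonneg q
  have v1 : Val k q (fun _ => c) (fun _ => c + q) (c + q) (c + 2 * q) :=
    ⟨fun _ _ _ => D1 (by linarith) (by linarith), D1 (by linarith) (by linarith),
      D1 (by linarith) (by linarith), D1 (by linarith) (by linarith)⟩
  have v2 : Val k q (fun _ => c) (fun _ => c + q) (c + q) (c + 1 + 2 * q) :=
    ⟨fun _ _ _ => D1 (by linarith) (by linarith), D1 (by linarith) (by linarith),
      D1 (by linarith) (by linarith), D1 (by linarith) (by linarith)⟩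
  have v3 : Val k q (fun _ => c) (fun _ => c + 1 + q) (c + 1 + q) (c + 1 + 2 * q) :=
    ⟨fun _ _ _ => D1 (by linarith) (by linarith), D1 (by linarith) (by linarith),
      D1 (by linarith) (by linarith), D1 (by linarith) (by linarith)⟩
  have v4 : Val k q (fun _ => c + 1) (fun _ => c + 1 + q) (c + 1 + q) (c + 1 + 2 * q) :=
    ⟨fun _ _ _ => D1 (by linarith) (by linarith), D1 (by linarith) (by linarith),
      D1 (by linarith) (by linarith), D1 (by linarith) (by linarith)⟩
  exact ((mY hk v1 v2).trans (mB hk v2 v3)).trans (mA hk v3 v4)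

lemma rotAll (hq : 4 * q < k) (c : ℤ) : St (Circ GG k q) (N k q hk c) (N k q hk 0) := by
  induction c using Int.induction_on with
  | zero => exact Relation.ReflTransGen.refl
  | succ n ih => exact (St_symm (rot hk hq n)).trans ih
  | pred n ih =>
    have := rot hk hq (-(n : ℤ) - 1)
    rw [show -(n : ℤ) - 1 + 1 = -n by ring] at this
    exact this.trans ih

lemma tri (hq0 : 0 < q) (hq : 4 * q < k) {a b : Fin 4 → ℤ} {x y : ℤ} (h : Val k q a b x y) :
    St (Circ GG k q) (F k hk a b x y) (F k hk a b (a 0 + q) (a 0 + 2 * q)) := by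
  have hq' : 4 * (q : ℤ) < k := by exact_mod_cast hq
  have h0 : (0 : ℤ) ≤ q := Int.natCast_nonneg q
  have h00 : (0 : ℤ) < q := by exact_mod_cast hq0
  obtain ⟨h1, h2, h3, h4⟩ := id h
  obtain ⟨s, hs1, hs2⟩ := h2.symm
  obtain ⟨t, ht1, ht2⟩ := h3.symm
  have h5 := h4.shift s t
  have h6 := h4.shift s 0
  rw [zero_mul, add_zero] at h6
  have v1 : Val k q a b (x + s * k) y := ⟨h1, D1 (by linarith) (by linarith), h3, h6⟩
  have v2 : Val k q a b (x + s * k) (y + t * k) :=
    ⟨h1, D1 (by linarith) (by linarith), D1 (by linarith) (by linarith), h5⟩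
  refine ((mB hk h v1).trans (mY hk v1 v2)).trans ?_
  have vf : Val k q a b (a 0 + q) (a 0 + 2 * q) :=
    ⟨h1, D1 (by linarith) (by linarith), D1 (by linarith) (by linarith),
      D1 (by linarith) (by linarith)⟩
  rcases h5.cases (by linarith) (by linarith) with ⟨e1, e2⟩ | ⟨e1, e2⟩
  · have v3 : Val k q a b (x + s * k) (a 0 + q) :=
      ⟨h1, D1 (by linarith) (by linarith), D1 (by linarith) (by linarith),
        D0 (by linarith) (by linarith)⟩
    have v4 : Val k q a b (a 0 + 3 * q) (a 0 + q) :=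
      ⟨h1, D1 (by linarith) (by linarith), D1 (by linarith) (by linarith),
        D0 (by linarith) (by linarith)⟩
    have v5 : Val k q a b (a 0 + 3 * q) (a 0 + 2 * q) :=
      ⟨h1, D1 (by linarith) (by linarith), D1 (by linarith) (by linarith),
        D0 (by linarith) (by linarith)⟩
    exact (((mY hk v2 v3).trans (mB hk v3 v4)).trans (mY hk v4 v5)).trans (mB hk v5 vf)
  · have v3 : Val k q a b (a 0 + q) (y + t * k) :=
      ⟨h1, D1 (by linarith) (by linarith), D1 (by linarith) (by linarith),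
        D1 (by linarith) (by linarith)⟩
    exact (mB hk v2 v3).trans (mY hk v3 vf)

lemma goodB (hq0 : 0 < q) (hq : 4 * q < k) {a b : Fin 4 → ℤ} {x y : ℤ} (h : Val k q a b x y) (d : ℤ)
    (hd : ∀ i, D k q (a i) d) : St (Circ GG k q) (F k hk a b x y) (N k q hk 0) := by
  have hq' : 4 * (q : ℤ) < k := by exact_mod_cast hq
  have h0 : (0 : ℤ) ≤ q := Int.natCast_nonneg q
  obtain ⟨h1, h2, h3, h4⟩ := id h
  have v1 : Val k q a (fun _ => d) x y := ⟨fun i _ _ => hd i, h2, h3, h4⟩
  have v2 : Val k q (fun _ => a 0) (fun _ => d) x y := ⟨fun _ _ _ => hd 0, h2, h3, h4⟩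
  have v3 : Val k q (fun _ => a 0) (fun _ => a 0 + q) x y :=
    ⟨fun _ _ _ => D1 (by linarith) (by linarith), h2, h3, h4⟩
  exact ((((mB hk h v1).trans (mA hk v1 v2)).trans (mB hk v2 v3)).trans (tri hk hq0 hq v3)).trans
    (rotAll hk hq (a 0))

lemma goodA (hq0 : 0 < q) (hq : 4 * q < k) {a b : Fin 4 → ℤ} {x y : ℤ} (h : Val k q a b x y) (p : ℤ)
    (hp : ∀ j, D k q p (b j)) : St (Circ GG k q) (F k hk a b x y) (N k q hk 0) := by
  have hq' : 4 * (q : ℤ) < k := by exact_mod_cast hq
  have h0 : (0 : ℤ) ≤ q := Int.natCast_nonneg q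
  obtain ⟨h1, h2, h3, h4⟩ := id h
  have v1 : Val k q (fun i => if i = 0 then a 0 else p) b x y := by
    refine ⟨fun i j hij => ?_, h2, h3, h4⟩
    by_cases hi : i = 0
    · subst hi; exact h1 _ _ hij
    · simp only [hi, if_false]; exact hp j
  refine (mA hk h v1).trans ?_
  have e1 := Int.emod_lt_of_pos (p - a 0) (show (0 : ℤ) < k by exact_mod_cast hk)
  have e2 := Int.emod_nonneg (p - a 0) (show (k : ℤ) ≠ 0 by exact_mod_cast hk.ne')
  rw [Int.emod_def] at e1 e2
  have : ∃ d, D k q (a 0) d ∧ D k q p d := by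
    by_cases hc : 2 * (q : ℤ) ≤ p - a 0 - k * ((p - a 0) / k)
    · exact ⟨a 0 + q, D1 (by linarith) (by linarith), -((p - a 0) / k), by linarith, by linarith⟩
    · refine ⟨p + q, D.symm ⟨-((p - a 0) / k), by linarith, by linarith⟩,
        D1 (by linarith) (by linarith)⟩
  obtain ⟨d, d1, d2⟩ := this
  refine goodB hk hq0 hq v1 d fun i => ?_
  by_cases hi : i = 0
  · simp only [hi, if_true]; exact d1
  · simp only [hi, if_false]; exact d2

def Ord (k q : ℕ) (a1 a2 a3 a4 b1 b2 b3 b4 : ℤ) : Prop :=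
  a1 + q ≤ b2 ∧ b2 + q ≤ a3 ∧ a3 + q ≤ b4 ∧ b4 + q ≤ a1 + k ∧
  b1 + q ≤ a2 ∧ a2 + q ≤ b3 ∧ b3 + q ≤ a4 ∧ a4 + q ≤ b1 + k ∧
  a1 + q ≤ b3 ∧ b3 + q ≤ a1 + k ∧ b2 + q ≤ a4 ∧ a4 + q ≤ b2 + k ∧
  a3 + q ≤ b1 + k ∧ b1 + q ≤ a3 ∧ b4 + q ≤ a2 + k ∧ a2 + q ≤ b4

lemma Ord.val {a1 a2 a3 a4 b1 b2 b3 b4 x y : ℤ} (h : Ord k q a1 a2 a3 a4 b1 b2 b3 b4)
    (τ : Fin 4 → Fin 4) (hτ : Function.Injective τ) (t0 : τ 0 = 0)
    (h2 : D k q a1 x) (h3 : D k q a1 y) (h4 : D k q x y) :
    Val k q (fun i => ![a1, a2, a3, a4] (τ i)) (fun i => ![b1, b2, b3, b4] (τ i)) x y := by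
  have h0 : (0 : ℤ) ≤ q := Int.natCast_nonneg q
  obtain ⟨c1, c2, c3, c4, c5, c6, c7, c8, c9, c10, c11, c12, c13, c14, c15, c16⟩ := h
  have key : ∀ i j : Fin 4, i ≠ j → D k q (![a1, a2, a3, a4] i) (![b1, b2, b3, b4] j) := by
    intro i j hij
    fin_cases i <;> fin_cases j <;> simp at hij ⊢ <;>
      first | exact D0 (by linarith) (by linarith) | exact D1 (by linarith) (by linarith)
  refine ⟨fun i j hij => key _ _ (fun e => hij (hτ e)), ?_, ?_, h4⟩
  · simp only [t0]; exact h2
  · simp only [t0]; exact h3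

lemma core (hq0 : 0 < q) (hq : 4 * q < k) (τ : Fin 4 → Fin 4) (hτ : Function.Injective τ)
    (t0 : τ 0 = 0) (a1 a3 b2 b4 x y : ℤ) (h2 : D k q a1 x) (h3 : D k q a1 y) (h4 : D k q x y)
    (n : ℕ) : ∀ a2 a4 b1 b3 : ℤ, Ord k q a1 a2 a3 a4 b1 b2 b3 b4 →
      (b3 - a1) + (a4 - b2) + (b1 + k - a3) + (a2 + k - b4) ≤ n →
      St (Circ GG k q) (F k hk (fun i => ![a1, a2, a3, a4] (τ i))
        (fun i => ![b1, b2, b3, b4] (τ i)) x y) (N k q hk 0) := by
  have hq' : 4 * (q : ℤ) < k := by exact_mod_cast hq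
  have h00 : (0 : ℤ) < q := by exact_mod_cast hq0
  induction n with
  | zero =>
    intro a2 a4 b1 b3 h hn
    obtain ⟨c1, c2, c3, c4, c5, c6, c7, c8, c9, c10, c11, c12, c13, c14, c15, c16⟩ := h
    simp only [Nat.cast_zero] at hn
    linarith
  | succ n ih =>
    intro a2 a4 b1 b3 h hn
    have hv := h.val τ hτ t0 h2 h3 h4
    obtain ⟨c1, c2, c3, c4, c5, c6, c7, c8, c9, c10, c11, c12, c13, c14, c15, c16⟩ := id h
    push_cast at hn
    by_cases e1 : b3 = a1 + q
    · refine goodA hk hq0 hq hv a3 fun j => ?_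
      generalize τ j = i
      fin_cases i <;> simp <;>
        first | exact D0 (by linarith) (by linarith) | exact D1 (by linarith) (by linarith)
    by_cases e2 : a4 = b2 + q
    · refine goodB hk hq0 hq hv b4 fun j => ?_
      generalize τ j = i
      fin_cases i <;> simp <;>
        first | exact D0 (by linarith) (by linarith) | exact D1 (by linarith) (by linarith)
    by_cases e3 : b1 + k = a3 + q
    · refine goodA hk hq0 hq hv a1 fun j => ?_
      generalize τ j = i
      fin_cases i <;> simp <;>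
        first | exact D0 (by linarith) (by linarith) | exact D1 (by linarith) (by linarith)
    by_cases e4 : a2 + k = b4 + q
    · refine goodB hk hq0 hq hv b2 fun j => ?_
      generalize τ j = i
      fin_cases i <;> simp <;>
        first | exact D0 (by linarith) (by linarith) | exact D1 (by linarith) (by linarith)
    by_cases f1 : b1 + q < a2
    · have o : Ord k q a1 (a2 - 1) a3 a4 b1 b2 b3 b4 := by unfold Ord; omega
      exact (mA hk hv (o.val τ hτ t0 h2 h3 h4)).trans (ih _ _ _ _ o (by linarith))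
    by_cases f2 : a2 + q < b3
    · have o : Ord k q a1 a2 a3 a4 b1 b2 (b3 - 1) b4 := by unfold Ord; omega
      exact (mB hk hv (o.val τ hτ t0 h2 h3 h4)).trans (ih _ _ _ _ o (by linarith))
    by_cases f3 : b3 + q < a4
    · have o : Ord k q a1 a2 a3 (a4 - 1) b1 b2 b3 b4 := by unfold Ord; omega
      exact (mA hk hv (o.val τ hτ t0 h2 h3 h4)).trans (ih _ _ _ _ o (by linarith))
    have o : Ord k q a1 a2 a3 a4 (b1 - 1) b2 b3 b4 := by unfold Ord; omega
    exact (mB hk hv (o.val τ hτ t0 h2 h3 h4)).trans (ih _ _ _ _ o (by linarith))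

lemma core2 (hq0 : 0 < q) (hq : 4 * q < k) {a b : Fin 4 → ℤ} {x y : ℤ} (h : Val k q a b x y)
    (i2 i3 i4 : Fin 4) (hex : ∃ τ : Fin 4 → Fin 4, (∀ i, ![0, i2, i3, i4] (τ i) = i) ∧ τ 0 = 0)
    (o : Ord k q (a 0) (a i2) (a i3) (a i4) (b 0) (b i2) (b i3) (b i4)) :
    St (Circ GG k q) (F k hk a b x y) (N k q hk 0) := by
  obtain ⟨τ, ht, t0⟩ := hex
  have hτ : Function.Injective τ := fun i j e => by rw [← ht i, e, ht j]
  have ea : ∀ a : Fin 4 → ℤ, a = fun i => ![a 0, a i2, a i3, a i4] (τ i) := by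
    intro a
    funext i
    conv_lhs => rw [← ht i]
    generalize τ i = j
    fin_cases j <;> rfl
  have := core hk hq0 hq τ hτ t0 (a 0) (a i3) (b i2) (b i4) x y h.2.1 h.2.2.1 h.2.2.2
    ((b i3 - a 0) + (a i4 - b i2) + (b 0 + k - a i3) + (a i2 + k - b i4)).toNat
    (a i2) (a i4) (b 0) (b i3) o (Int.self_le_toNat _)
  rw [← ea a, ← ea b] at this
  exact this

include hk in
lemma notD {x y : ℤ} (h : ¬ D k q x y) : ∃ t : ℤ, -(q : ℤ) < x + t * k - y ∧ x + t * k - y < q := by
  have e1 := Int.emod_lt_of_pos (x - y) (show (0 : ℤ) < k by exact_mod_cast hk)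
  have e2 := Int.emod_nonneg (x - y) (show (k : ℤ) ≠ 0 by exact_mod_cast hk.ne')
  rw [Int.emod_def] at e1 e2
  by_cases c1 : x - y - k * ((x - y) / k) < q
  · exact ⟨-((x - y) / k), by linarith, by linarith⟩
  by_cases c2 : (k : ℤ) - q < x - y - k * ((x - y) / k)
  · exact ⟨-((x - y) / k) - 1, by linarith, by linarith⟩
  exact absurd ⟨-((x - y) / k), by linarith, by linarith⟩ h

lemma main (hq0 : 0 < q) (hq : 4 * q < k) {a b : Fin 4 → ℤ} {x y : ℤ} (h : Val k q a b x y) :
    St (Circ GG k q) (F k hk a b x y) (N k q hk 0) := by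
  have hq' : 4 * (q : ℤ) < k := by exact_mod_cast hq
  have h00 : (0 : ℤ) < q := by exact_mod_cast hq0
  by_cases hg : ∃ i, D k q (a i) (b i)
  · obtain ⟨i, hi⟩ := hg
    refine goodA hk hq0 hq h (a i) fun j => ?_
    by_cases e : i = j
    · subst e; exact hi
    · exact h.1 _ _ e
  push Not at hg
  have : ∀ j, ∃ s t : ℤ, (j = 0 → t = 0) ∧
      (j ≠ 0 → (q : ℤ) ≤ b j + s * k - a 0 ∧ b j + s * k - a 0 ≤ k - q) ∧
      -(q : ℤ) < a j + t * k - (b j + s * k) ∧ a j + t * k - (b j + s * k) < q := by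
    intro j
    obtain ⟨t, t1, t2⟩ := notD hk (hg j)
    by_cases e : j = 0
    · exact ⟨-t, 0, fun _ => rfl, fun h => absurd e h, by linarith, by linarith⟩
    · obtain ⟨s, s1, s2⟩ := (h.1 0 j (Ne.symm e)).symm
      exact ⟨s, t + s, fun h => absurd h e, fun _ => ⟨by linarith, by linarith⟩, by linarith,
        by linarith⟩
  choose s t ht hs hd using this
  have t0 := ht 0 rfl
  have v1 : Val k q (fun j => a j + t j * k) b x y := by
    refine ⟨fun i j hij => ?_, ?_, ?_, h.2.2.2⟩
    · simpa using (h.1 i j hij).shift (t i) 0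
    · simpa [t0] using h.2.1
    · simpa [t0] using h.2.2.1
  have v2 : Val k q (fun j => a j + t j * k) (fun j => b j + s j * k) x y :=
    ⟨fun i j hij => (h.1 i j hij).shift _ _, v1.2.1, v1.2.2.1, h.2.2.2⟩
  refine ((mA hk h v1).trans (mB hk v1 v2)).trans ?_
  have hs' : ∀ j, j ≠ 0 → (q : ℤ) ≤ b j + s j * k - (a 0 + t 0 * k) ∧
      b j + s j * k - (a 0 + t 0 * k) ≤ k - q := by
    intro j hj
    rw [t0]
    simpa using hs j hj
  generalize hA : (fun j => a j + t j * k) = A at v2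
  generalize hB : (fun j => b j + s j * k) = B at v2
  have hS : ∀ j, j ≠ 0 → (q : ℤ) ≤ B j - A 0 ∧ B j - A 0 ≤ k - q := by
    subst hA; subst hB; exact hs'
  have hD : ∀ j, -(q : ℤ) < A j - B j ∧ A j - B j < q := by
    subst hA; subst hB; exact hd
  have s1 := hS 1 (by decide)
  have s2 := hS 2 (by decide)
  have s3 := hS 3 (by decide)
  have d0 := hD 0
  have d1 := hD 1
  have d2 := hD 2
  have d3 := hD 3
  have p10 := (v2.1 1 0 (by decide)).cases (by omega) (by omega)
  have p20 := (v2.1 2 0 (by decide)).cases (by omega) (by omega)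
  have p30 := (v2.1 3 0 (by decide)).cases (by omega) (by omega)
  have p12 := (v2.1 1 2 (by decide)).cases (by omega) (by omega)
  have p13 := (v2.1 1 3 (by decide)).cases (by omega) (by omega)
  have p21 := (v2.1 2 1 (by decide)).cases (by omega) (by omega)
  have p23 := (v2.1 2 3 (by decide)).cases (by omega) (by omega)
  have p31 := (v2.1 3 1 (by decide)).cases (by omega) (by omega)
  have p32 := (v2.1 3 2 (by decide)).cases (by omega) (by omega)
  have q10 : (q : ℤ) ≤ A 1 - B 0 ∧ A 1 - B 0 ≤ k - q := by omega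
  have q20 : (q : ℤ) ≤ A 2 - B 0 ∧ A 2 - B 0 ≤ k - q := by omega
  have q30 : (q : ℤ) ≤ A 3 - B 0 ∧ A 3 - B 0 ≤ k - q := by omega
  clear p10 p20 p30
  by_cases o12 : B 1 ≤ B 2 <;> by_cases o13 : B 1 ≤ B 3 <;> by_cases o23 : B 2 ≤ B 3
  · exact core2 hk hq0 hq v2 1 2 3 ⟨![0, 1, 2, 3], by decide, rfl⟩ (by unfold Ord; omega)
  · exact core2 hk hq0 hq v2 1 3 2 ⟨![0, 1, 3, 2], by decide, rfl⟩ (by unfold Ord; omega)
  · omega
  · exact core2 hk hq0 hq v2 3 1 2 ⟨![0, 2, 3, 1], by decide, rfl⟩ (by unfold Ord; omega)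
  · exact core2 hk hq0 hq v2 2 1 3 ⟨![0, 2, 1, 3], by decide, rfl⟩ (by unfold Ord; omega)
  · omega
  · exact core2 hk hq0 hq v2 2 3 1 ⟨![0, 3, 1, 2], by decide, rfl⟩ (by unfold Ord; omega)
  · exact core2 hk hq0 hq v2 3 2 1 ⟨![0, 3, 2, 1], by decide, rfl⟩ (by unfold Ord; omega)

end moves

lemma toN {k q : ℕ} (hk : 0 < k) (hq0 : 0 < q) (hq : 4 * q < k) (f : V → Fin k)
    (hf : Circ GG k q f) : St (Circ GG k q) f (N k q hk 0) := by
  have hd : ∀ u v, GG.Adj u v → D k q ((f u : ℕ) : ℤ) ((f v : ℕ) : ℤ) := by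
    intro u v huv
    obtain ⟨h1, h2⟩ := hf u v huv
    rcases le_total 0 (((f u : ℕ) : ℤ) - ((f v : ℕ) : ℤ)) with h | h
    · rw [abs_of_nonneg h] at h1 h2; exact D0 h1 h2
    · rw [abs_of_nonpos h] at h1 h2; exact D1 (by linarith) (by linarith)
  have hr : ∀ z : Fin k, red k hk ((z : ℕ) : ℤ) = z := by
    intro z
    apply Fin.ext
    have := red_val k hk ((z : ℕ) : ℤ)
    rw [Int.emod_eq_of_lt (Int.natCast_nonneg _) (by exact_mod_cast z.2)] at this
    exact_mod_cast this
  have hv : Val k q (fun i => ((f (.inl i) : ℕ) : ℤ)) (fun j => ((f (.inr (.inl j)) : ℕ) : ℤ))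
      ((f (.inr (.inr false)) : ℕ) : ℤ) ((f (.inr (.inr true)) : ℕ) : ℤ) :=
    ⟨fun i j hij => hd _ _ (by simpa [GG, adj] using hij), hd _ _ (by decide), hd _ _ (by decide),
      hd _ _ (by decide)⟩
  have := main hk hq0 hq hv
  convert this using 1
  funext v
  rcases v with i | j | _ | _ <;> simp only [F, hr]

lemma cmix {k q : ℕ} (hq0 : 0 < q) (hq : 4 * q < k) : Mixing (Circ GG k q) := by
  have hk : 0 < k := by omega
  intro f g hf hg
  exact (toN hk hq0 hq f hf).trans (St_symm (toN hk hq0 hq g hg))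

lemma proper_eq (k : ℕ) : Proper GG k = Circ GG k 1 := by
  funext f
  apply propext
  unfold Proper Circ
  refine forall_congr' fun u => forall_congr' fun v => forall_congr' fun _ => ?_
  have h1 := (f u).2
  have h2 := (f v).2
  rw [Ne, Fin.ext_iff]
  rcases le_total 0 (((f u : ℕ) : ℤ) - ((f v : ℕ) : ℤ)) with h | h
  · rw [abs_of_nonneg h]; omega
  · rw [abs_of_nonpos h]; omega

def fr : V → Fin 4
  | .inl i => i
  | .inr (.inl j) => j
  | .inr (.inr false) => 1
  | .inr (.inr true) => 2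

def fl : V → Fin 4
  | .inl _ => 0
  | .inr (.inl _) => 1
  | .inr (.inr false) => 1
  | .inr (.inr true) => 2

lemma not4 : ¬ Mixing (Proper GG 4) := by
  intro h
  have h1 := h fr fl (by unfold Proper; decide) (by unfold Proper; decide)
  have inv : ∀ g, St (Proper GG 4) fr g →
      (∀ i, g (.inl i) = i) ∧ ∀ j, g (.inr (.inl j)) = j := by
    intro g hg
    induction hg with
    | refl => exact ⟨fun _ => rfl, fun _ => rfl⟩
    | @tail f g _ h2 ih =>
      obtain ⟨_, hg, v, _, hu⟩ := h2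
      constructor
      · intro i
        by_cases e : Sum.inl i = v
        · by_contra hne
          have := hg (.inl i) (.inr (.inl (g (.inl i)))) (by simpa [GG, adj] using Ne.symm hne)
          rw [← hu (.inr (.inl (g (.inl i)))) (by rw [← e]; simp), ih.2] at this
          exact this rfl
        · rw [← hu _ e, ih.1]
      · intro j
        by_cases e : Sum.inr (Sum.inl j) = v
        · by_contra hne
          have := hg (.inl (g (.inr (.inl j)))) (.inr (.inl j)) (by simpa [GG, adj] using hne)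
          rw [← hu (.inl (g (.inr (.inl j)))) (by rw [← e]; simp), ih.1] at this
          exact this rfl
        · rw [← hu _ e, ih.2]
  exact absurd ((inv fl h1).1 1) (by decide)

theorem result : ∃ (W : Type) (_ : Fintype W) (G : SimpleGraph W), G.Connected ∧ ¬ G.IsBipartite ∧
    IsGLB (CSet G) 4 ∧ IsLeast (MSet G) 5 := by
  refine ⟨V, inferInstance, GG, by decide +kernel, ?_, ⟨?_, ?_⟩, ?_, ?_⟩
  · rintro ⟨c⟩
    have h1 := c.valid (show GG.Adj (.inl 0) (.inr (.inr false)) by decide)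
    have h2 := c.valid (show GG.Adj (.inl 0) (.inr (.inr true)) by decide)
    have h3 := c.valid (show GG.Adj (.inr (.inr false)) (.inr (.inr true)) by decide)
    revert h1 h2 h3
    generalize c (.inl 0) = a
    generalize c (.inr (.inr false)) = b
    generalize c (.inr (.inr true)) = d
    revert a b d
    decide
  · rintro x ⟨l, rfl, hl⟩
    by_contra hh
    have : l ≤ 4 := by
      have : (l : ℝ) < 4 := not_le.1 hh
      exact_mod_cast this.le
    have := hl 4 1 (by norm_num) (by norm_num) (by simpa using this)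
    rw [← proper_eq] at this
    exact not4 this
  · intro y hy
    by_contra hh
    obtain ⟨l, l1, l2⟩ := exists_rat_btwn (not_le.1 hh)
    have l3 : (4 : ℚ) < l := by exact_mod_cast l1
    have : y ≤ l := hy ⟨l, rfl, fun k q hk hq hkq => cmix hq (by
      have hq' : (0 : ℚ) < q := by exact_mod_cast hq
      have := lt_of_lt_of_le l3 hkq
      rw [lt_div_iff₀ hq'] at this
      exact_mod_cast this)⟩
    linarith
  · intro k _ hk
    rw [proper_eq]
    exact cmix (by norm_num) (by omega)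
  · intro l hl
    by_contra hh
    exact not4 (hl 4 (by norm_num) (by omega))

end Pool.Agent.Results.MP_fe6464_co.Cube
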